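import Pool.Agent.QGlue.R

/-!
# MP_77c265_an, Question Q1: the answer is yes

For `n = 3, 4` and every real `α > -1`, `α ≠ 0`, the equation `(-Δ)^{n/2} u = |x|^{nα} e^{nu}` on
`ℝⁿ` has solutions with arbitrarily large total curvature `Λ(u) = ∫ |x|^{nα} e^{nu} dx < ∞`.
-/

set_option autoImplicit false

namespace Pool.Agent.Results.MP_77c265_an.Unbounded

open MeasureTheory Pool.Agent.QGlue

/-- For every `α > -1` with `α ≠ 0` and every `M` there are a solution on `ℝ³` and a solution on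
`ℝ⁴` of the singular Liouville equation whose total curvature is finite and larger than `M`. -/
theorem result (α : ℝ) (hα : -1 < α) (hα0 : α ≠ 0) :
    (∀ M : ℝ, ∃ u : E 3 → ℝ, IsSol3 α u ∧
      M < ∫ x, ‖x‖ ^ (3 * α) * Real.exp (3 * u x)) ∧
    (∀ M : ℝ, ∃ u : E 4 → ℝ, IsSol4 α u ∧
      M < ∫ x, ‖x‖ ^ (4 * α) * Real.exp (4 * u x)) :=
  ⟨fun M => final3 hα hα0 M, fun M => final4 hα hα0 M⟩

end Pool.Agent.Results.MP_77c265_an.Unbounded
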